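import Mathlib

open Filter Topology
open scoped ENNReal

namespace Pool.Agent.Results.MP_63eeb0_an.GurariiBasis

section Defs

/-- `X` is a Gurarii space (of any density). -/
def IsGurarii (X : Type*) [NormedAddCommGroup X] [NormedSpace ℝ X] : Prop :=
  ∀ (ε : ℝ), 0 < ε → ∀ (F : Type) [NormedAddCommGroup F] [NormedSpace ℝ F] [FiniteDimensional ℝ F]
    (E : Submodule ℝ F) (e : E →ₗᵢ[ℝ] X), ∃ f : F →L[ℝ] X,
      (∀ y, (1 + ε)⁻¹ * ‖y‖ ≤ ‖f y‖ ∧ ‖f y‖ ≤ (1 + ε) * ‖y‖) ∧ ∀ y : E, ‖f y - e y‖ ≤ ε * ‖y‖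

/-- `(e_α)_{α < κ}` is a monotone transfinite Schauder basis with projections `P_β`, `β ≤ κ`. -/
structure IsMonotoneTransfiniteBasis {X : Type*} [NormedAddCommGroup X] [NormedSpace ℝ X]
    (κ : Ordinal) (e : Ordinal → X) (P : Ordinal → X →L[ℝ] X) : Prop where
  nonzero : ∀ α < κ, e α ≠ 0
  dense : (Submodule.span ℝ (e '' Set.Iio κ)).topologicalClosure = ⊤
  idempotent : ∀ β ≤ κ, ∀ v, P β (P β v) = P β v
  proj_lt : ∀ β ≤ κ, ∀ α < β, P β (e α) = e α
  proj_ge : ∀ β ≤ κ, ∀ α, β ≤ α → α < κ → P β (e α) = 0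
  proj_top : ∀ v, P κ v = v
  cont : ∀ v, ContinuousOn (fun β => P β v) (Set.Iic κ)
  monotone : ∀ β ≤ κ, ‖P β‖ ≤ 1

/-- The density of `X` is `c`: the least cardinality of a dense subset is `c`. -/
def HasDensity (X : Type) [TopologicalSpace X] (c : Cardinal) : Prop :=
  (∃ S : Set X, Dense S ∧ Cardinal.mk S = c) ∧ ∀ S : Set X, Dense S → c ≤ Cardinal.mk S

end Defs

section Construction

variable {Γ : Type} [LinearOrder Γ] [WellFoundedLT Γ]

/-- Row data: finitely supported functionals of norm at most one below each index. -/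
structure Rows (Γ : Type) [LinearOrder Γ] where
  r : Γ → (Γ →₀ ℝ)
  supp : ∀ γ, ∀ β ∈ (r γ).support, β < γ
  norm : ∀ γ, ∑ β ∈ (r γ).support, |r γ β| ≤ 1

variable (R : Rows Γ)

/-- The coordinate functionals on finitely supported families. -/
noncomputable def D : Γ → ((Γ →₀ ℝ) →ₗ[ℝ] ℝ) :=
  WellFoundedLT.fix fun γ IH =>
    Finsupp.lapply γ + ∑ β ∈ (R.r γ).support.attach, R.r γ β • IH β (R.supp γ β β.2)

theorem D_eq (γ : Γ) (a : Γ →₀ ℝ) :
    D R γ a = a γ + ∑ β ∈ (R.r γ).support, R.r γ β * D R β a := by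
  rw [D, WellFoundedLT.fix_eq]
  rw [LinearMap.add_apply, LinearMap.sum_apply, Finsupp.lapply_apply]
  congr 1
  rw [← Finset.sum_attach (R.r γ).support (fun β => R.r γ β *
    (WellFoundedLT.fix (fun γ IH => Finsupp.lapply γ + ∑ β ∈ (R.r γ).support.attach,
      R.r γ β • IH β (R.supp γ β β.2)) β : (Γ →₀ ℝ) →ₗ[ℝ] ℝ) a)]
  exact Finset.sum_congr rfl (fun β _ => rfl)

theorem D_zero (γ : Γ) (a : Γ →₀ ℝ) (h : ∀ α ≤ γ, a α = 0) : D R γ a = 0 := by
  induction γ using WellFoundedLT.induction with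
  | ind γ ih =>
    rw [D_eq, h γ le_rfl, zero_add]
    apply Finset.sum_eq_zero
    intro β hβ
    have hβγ := R.supp γ β hβ
    rw [ih β hβγ (fun α hα => h α (hα.trans hβγ.le)), mul_zero]

theorem D_congr (γ : Γ) {a a' : Γ →₀ ℝ} (h : ∀ α ≤ γ, a α = a' α) : D R γ a = D R γ a' := by
  have := D_zero R γ (a - a') (fun α hα => by rw [Finsupp.sub_apply, h α hα, sub_self])
  rw [map_sub, sub_eq_zero] at this
  exact this

theorem D_le {a : Γ →₀ ℝ} {B : Finset Γ} (ha : ∀ γ, γ ∉ B → a γ = 0) {K : ℝ} (hK : 0 ≤ K)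
    (hB : ∀ β ∈ B, |D R β a| ≤ K) (γ : Γ) : |D R γ a| ≤ K := by
  induction γ using WellFoundedLT.induction with
  | ind γ ih =>
    by_cases hγ : γ ∈ B
    · exact hB γ hγ
    · rw [D_eq, ha γ hγ, zero_add]
      calc |∑ β ∈ (R.r γ).support, R.r γ β * D R β a|
          ≤ ∑ β ∈ (R.r γ).support, |R.r γ β| * K := by
            refine (Finset.abs_sum_le_sum_abs _ _).trans (Finset.sum_le_sum (fun β hβ => ?_))
            rw [abs_mul]
            exact mul_le_mul_of_nonneg_left (ih β (R.supp γ β hβ)) (abs_nonneg _)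
        _ = (∑ β ∈ (R.r γ).support, |R.r γ β|) * K := by rw [Finset.sum_mul]
        _ ≤ 1 * K := mul_le_mul_of_nonneg_right (R.norm γ) hK
        _ = K := one_mul K

theorem D_bdd (a : Γ →₀ ℝ) : ∃ K, ∀ γ, |D R γ a| ≤ K := by
  refine ⟨∑ β ∈ a.support, |D R β a|, D_le R (B := a.support) (fun γ hγ => ?_) ?_ ?_⟩
  · exact Finsupp.notMem_support_iff.mp hγ
  · exact Finset.sum_nonneg (fun _ _ => abs_nonneg _)
  · intro β hβ
    exact Finset.single_le_sum (f := fun β => |D R β a|) (fun _ _ => abs_nonneg _) hβ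

/-- The ambient space. -/
abbrev L (Γ : Type) : Type := lp (fun _ : Γ => ℝ) ∞

/-- The embedding of finitely supported families. -/
noncomputable def T : (Γ →₀ ℝ) →ₗ[ℝ] L Γ where
  toFun a := ⟨fun γ => D R γ a, memℓp_infty (by
    obtain ⟨K, hK⟩ := D_bdd R a
    exact ⟨K, by rintro _ ⟨γ, rfl⟩; exact hK γ⟩)⟩
  map_add' a b := by
    apply lp.ext
    funext γ
    exact map_add (D R γ) a b
  map_smul' c a := by
    apply lp.ext
    funext γ
    exact map_smul (D R γ) c a

theorem T_apply (a : Γ →₀ ℝ) (γ : Γ) : (T R a) γ = D R γ a := rfl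

/-- The space. -/
noncomputable def X : Submodule ℝ (L Γ) := (LinearMap.range (T R)).topologicalClosure

instance : CompleteSpace (X R) :=
  (Submodule.isClosed_topologicalClosure (LinearMap.range (T R))).completeSpace_coe

/-- The embedding of finitely supported families into the space. -/
noncomputable def J : (Γ →₀ ℝ) →ₗ[ℝ] X R :=
  (T R).codRestrict (X R) (fun a => Submodule.le_topologicalClosure _ (LinearMap.mem_range_self _ a))

theorem J_coe (a : Γ →₀ ℝ) : ((J R a : X R) : L Γ) = T R a := rfl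

theorem J_dense : DenseRange (J R) := by
  intro v
  rw [Metric.mem_closure_iff]
  intro ε hε
  have h1 : (v : L Γ) ∈ closure (LinearMap.range (T R) : Set (L Γ)) := v.2
  rw [Metric.mem_closure_iff] at h1
  obtain ⟨w, ⟨a, rfl⟩, hd⟩ := h1 ε hε
  exact ⟨J R a, ⟨a, rfl⟩, hd⟩

theorem norm_J_le {a : Γ →₀ ℝ} {B : Finset Γ} (ha : ∀ γ, γ ∉ B → a γ = 0) {K : ℝ} (hK : 0 ≤ K)
    (hB : ∀ β ∈ B, |D R β a| ≤ K) : ‖J R a‖ ≤ K := by
  show ‖T R a‖ ≤ K
  exact lp.norm_le_of_forall_le hK (fun γ => D_le R ha hK hB γ)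

theorem le_norm_J (a : Γ →₀ ℝ) (γ : Γ) : |D R γ a| ≤ ‖J R a‖ := by
  show ‖(T R a) γ‖ ≤ ‖T R a‖
  exact lp.norm_apply_le_norm (by simp) _ _

/-! ### Projections -/

open Classical in
/-- Restriction of finitely supported families. -/
noncomputable def filt (s : Set Γ) : (Γ →₀ ℝ) →ₗ[ℝ] (Γ →₀ ℝ) where
  toFun a := a.filter (fun γ => γ ∈ s)
  map_add' _ _ := Finsupp.filter_add
  map_smul' _ _ := Finsupp.filter_smul

open Classical in
theorem filt_mem {s : Set Γ} (a : Γ →₀ ℝ) {γ : Γ} (h : γ ∈ s) : filt s a γ = a γ :=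
  Finsupp.filter_apply_pos _ _ h

open Classical in
theorem filt_notMem {s : Set Γ} (a : Γ →₀ ℝ) {γ : Γ} (h : γ ∉ s) : filt s a γ = 0 :=
  Finsupp.filter_apply_neg _ _ h

theorem filt_le {s : Set Γ} (hs : IsLowerSet s) (a : Γ →₀ ℝ) :
    ‖J R (filt s a)‖ ≤ 1 * ‖J R a‖ := by
  rw [one_mul]
  apply norm_J_le R (B := (filt s a).support) (fun γ hγ => Finsupp.notMem_support_iff.mp hγ)
    (norm_nonneg _)
  intro β hβ
  have hβs : β ∈ s := by
    by_contra h
    exact (Finsupp.mem_support_iff.mp hβ) (filt_notMem a h)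
  rw [D_congr R β (a' := a) (fun α hα => filt_mem a (hs hα hβs))]
  exact le_norm_J R a β

/-- The projections of the space. -/
noncomputable def Pr (s : Set Γ) : X R →L[ℝ] X R := ((J R).comp (filt s)).extendOfNorm (J R)

theorem Pr_J {s : Set Γ} (hs : IsLowerSet s) (a : Γ →₀ ℝ) : Pr R s (J R a) = J R (filt s a) :=
  LinearMap.extendOfNorm_eq (f := (J R).comp (filt s)) (J_dense R) ⟨1, filt_le R hs⟩ a

theorem Pr_norm {s : Set Γ} (hs : IsLowerSet s) : ‖Pr R s‖ ≤ 1 :=
  LinearMap.opNorm_extendOfNorm_le (f := (J R).comp (filt s)) (J_dense R) zero_le_one (filt_le R hs)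

/-- Triangular lifting: a linear map into the span of finitely many basis vectors with prescribed
coordinates. -/
theorem exists_lift {F : Type*} [AddCommGroup F] [Module ℝ F] (B : Finset Γ)
    (t : Γ → (F →ₗ[ℝ] ℝ)) :
    ∃ φ : F →ₗ[ℝ] (Γ →₀ ℝ), (∀ y, ∀ γ, γ ∉ B → φ y γ = 0) ∧ ∀ β ∈ B, ∀ y, D R β (φ y) = t β y := by
  classical
  induction B using Finset.induction_on_max with
  | empty => exact ⟨0, fun _ _ _ => rfl, by simp⟩
  | insert m B hm ih =>
    obtain ⟨φ, h1, h2⟩ := ih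
    refine ⟨φ + (t m - (D R m).comp φ).smulRight (Finsupp.single m 1), ?_, ?_⟩
    · intro y γ hγ
      rw [Finset.mem_insert, not_or] at hγ
      rw [LinearMap.add_apply, Finsupp.add_apply, h1 y γ hγ.2, zero_add,
        LinearMap.smulRight_apply, Finsupp.smul_apply, Finsupp.single_apply, if_neg (Ne.symm hγ.1),
        smul_zero]
    · intro β hβ y
      rw [LinearMap.add_apply, map_add, LinearMap.smulRight_apply, map_smul, smul_eq_mul]
      rcases Finset.mem_insert.mp hβ with rfl | hβ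
      · have h3 : D R β (Finsupp.single β 1) = 1 := by
          rw [D_eq, Finsupp.single_eq_same]
          rw [Finset.sum_eq_zero, add_zero]
          intro α hα
          rw [D_zero R α _ (fun α' hα' => ?_), mul_zero]
          rw [Finsupp.single_apply, if_neg]
          have := R.supp β α hα
          exact fun h => absurd (h ▸ hα') (not_le.mpr this)
        rw [h3, mul_one, LinearMap.sub_apply, LinearMap.comp_apply]
        ring
      · have h3 : D R β (Finsupp.single m 1) = 0 := by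
          apply D_zero
          intro α hα
          rw [Finsupp.single_apply, if_neg]
          intro h
          exact absurd (hm β hβ) (not_lt.mpr (h ▸ hα))
        rw [h3, mul_zero, add_zero, h2 β hβ y]

/-! ### The Gurarii property -/

/-- Finitely many functionals norming a finite-dimensional space up to `δ`. -/
theorem exists_norming (F : Type) [NormedAddCommGroup F] [NormedSpace ℝ F] [FiniteDimensional ℝ F]
    {δ : ℝ} (hδ : 0 < δ) : ∃ Ψ : Finset (StrongDual ℝ F), (∀ ψ ∈ Ψ, ‖ψ‖ ≤ 1) ∧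
      ∀ y : F, (1 - δ) * ‖y‖ ≤ 0 ∨ ∃ ψ ∈ Ψ, (1 - δ) * ‖y‖ ≤ |ψ y| := by
  classical
  have hc : IsCompact (Metric.sphere (0 : F) 1) := isCompact_sphere 0 1
  obtain ⟨S, hS, hSfin, hcov⟩ := hc.finite_cover_balls hδ
  have hn : ∀ y : F, ∃ ψ : StrongDual ℝ F, ‖ψ‖ ≤ 1 ∧ ψ y = ‖y‖ := by
    intro y
    obtain ⟨g, hg1, hg2⟩ := exists_dual_vector'' ℝ y
    exact ⟨g, hg1, by simpa using hg2⟩
  choose g hg1 hg2 using hn
  refine ⟨hSfin.toFinset.image g, ?_, ?_⟩
  · intro ψ hψ
    obtain ⟨y, -, rfl⟩ := Finset.mem_image.mp hψ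
    exact hg1 y
  · intro y
    by_cases hy : y = 0
    · left; rw [hy, norm_zero, mul_zero]
    · right
      have hy' : 0 < ‖y‖ := norm_pos_iff.mpr hy
      have hu : ‖(‖y‖⁻¹ : ℝ) • y‖ = 1 := by
        rw [norm_smul, norm_inv, norm_norm, inv_mul_cancel₀ hy'.ne']
      have h1 := hcov (mem_sphere_zero_iff_norm.mpr hu)
      simp only [Set.mem_iUnion, exists_prop] at h1
      obtain ⟨z, hz, hzy⟩ := h1
      have hz1 : ‖z‖ = 1 := mem_sphere_zero_iff_norm.mp (hS hz)
      refine ⟨g z, Finset.mem_image.mpr ⟨z, hSfin.mem_toFinset.mpr hz, rfl⟩, ?_⟩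
      have h2 : ‖g z ((‖y‖⁻¹ : ℝ) • y - z)‖ ≤ δ := by
        refine ((g z).le_opNorm _).trans ?_
        have h3 : ‖(‖y‖⁻¹ : ℝ) • y - z‖ < δ := by
          rw [← dist_eq_norm]; exact hzy
        calc ‖g z‖ * ‖(‖y‖⁻¹ : ℝ) • y - z‖ ≤ 1 * ‖(‖y‖⁻¹ : ℝ) • y - z‖ :=
              mul_le_mul_of_nonneg_right (hg1 z) (norm_nonneg _)
          _ ≤ δ := by rw [one_mul]; exact h3.le
      rw [map_sub, hg2 z, hz1, map_smul, smul_eq_mul, Real.norm_eq_abs] at h2
      have h4 := (abs_le.mp h2).1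
      have h5 : 1 - δ ≤ ‖y‖⁻¹ * g z y := by linarith
      have h6 : (1 - δ) * ‖y‖ ≤ g z y := by
        have := mul_le_mul_of_nonneg_right h5 hy'.le
        calc (1 - δ) * ‖y‖ ≤ ‖y‖⁻¹ * g z y * ‖y‖ := this
          _ = g z y := by field_simp
      exact h6.trans (le_abs_self _)

/-- Functionals on finitely supported copies of finite-dimensional spaces are given by rows. -/
theorem exists_coeff {E : Type} [NormedAddCommGroup E] [NormedSpace ℝ E] [FiniteDimensional ℝ E]
    (u : E →ₗ[ℝ] (Γ →₀ ℝ)) {A : Finset Γ} (hA : ∀ y, ∀ γ, γ ∉ A → u y γ = 0) {δ : ℝ} (hδ1 : δ < 1)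
    (hu : ∀ y, (1 - δ) * ‖y‖ ≤ ‖J R (u y)‖) (ψ : StrongDual ℝ E) (hψ : ‖ψ‖ ≤ 1) :
    ∃ c : Γ →₀ ℝ, (∑ β ∈ c.support, |c β| ≤ 1) ∧
      ∀ y, ∑ β ∈ c.support, c β * D R β (u y) = (1 - δ) * ψ y := by
  classical
  have hδ : 0 < 1 - δ := by linarith
  let w : E →ₗ[ℝ] (A → ℝ) := LinearMap.pi (fun β => (D R β).comp u)
  have hw : ∀ y β, w y β = D R β (u y) := fun _ _ => rfl
  have hlow : ∀ y, (1 - δ) * ‖y‖ ≤ ‖w y‖ := by
    intro y
    refine (hu y).trans (norm_J_le R (hA y) (norm_nonneg _) (fun β hβ => ?_))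
    have := norm_le_pi_norm (w y) ⟨β, hβ⟩
    exact this
  have hbd : ∀ y, ‖ψ y‖ ≤ (1 - δ)⁻¹ * ‖w y‖ := by
    intro y
    have h1 : ‖ψ y‖ ≤ ‖y‖ := by
      refine (ψ.le_opNorm y).trans ?_
      calc ‖ψ‖ * ‖y‖ ≤ 1 * ‖y‖ := mul_le_mul_of_nonneg_right hψ (norm_nonneg _)
        _ = ‖y‖ := one_mul _
    rw [inv_mul_eq_div, le_div_iff₀ hδ]
    nlinarith [hlow y, norm_nonneg y]
  let ψ' : StrongDual ℝ (LinearMap.range w) := (ψ : E →ₗ[ℝ] ℝ).compLeftInverse w
  have hψ' : ∀ y, ψ' ⟨w y, ⟨y, rfl⟩⟩ = ψ y := fun y =>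
    LinearMap.compLeftInverse_apply_of_bdd (ψ : E →ₗ[ℝ] ℝ) w ⟨(1 - δ)⁻¹, hbd⟩ y (w y) rfl
  have hψ'n : ‖ψ'‖ ≤ (1 - δ)⁻¹ := by
    apply ContinuousLinearMap.opNorm_le_bound _ (by positivity)
    rintro ⟨v, ⟨y, rfl⟩⟩
    rw [hψ']
    exact hbd y
  obtain ⟨g, hg1, hg2⟩ := exists_extension_norm_eq (LinearMap.range w) ψ'
  have hg : ‖g‖ ≤ (1 - δ)⁻¹ := by rw [hg2]; exact hψ'n
  let cf : Γ → ℝ := fun β => if h : β ∈ A then (1 - δ) * g (Pi.single ⟨β, h⟩ 1) else 0
  let c : Γ →₀ ℝ := Finsupp.onFinset A cf (fun β hβ => by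
    by_contra h
    exact hβ (dif_neg h))
  have hcA : ∀ (φ : Γ → ℝ → ℝ), (∀ β, φ β 0 = 0) →
      ∑ β ∈ c.support, φ β (c β) = ∑ β : A, φ β ((1 - δ) * g (Pi.single β 1)) := by
    intro φ hφ
    have h1 : ∑ β ∈ c.support, φ β (c β) = ∑ β ∈ A, φ β (c β) := by
      apply Finset.sum_subset
      · exact Finsupp.support_onFinset_subset
      · intro β _ hβ
        rw [Finsupp.notMem_support_iff.mp hβ, hφ]
    rw [h1, ← Finset.sum_coe_sort A]
    refine Finset.sum_congr rfl (fun β _ => ?_)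
    have : c β = (1 - δ) * g (Pi.single β 1) := by
      show cf β = _
      exact dif_pos β.2
    rw [this]
  refine ⟨c, ?_, ?_⟩
  · rw [hcA (fun _ x => |x|) (fun _ => abs_zero)]
    -- test against signs
    let sg : A → ℝ := fun β => if 0 ≤ g (Pi.single β 1) then 1 else -1
    have hsg : ‖sg‖ ≤ 1 := by
      rw [pi_norm_le_iff_of_nonneg zero_le_one]
      intro β
      show |if 0 ≤ g (Pi.single β 1) then (1 : ℝ) else -1| ≤ 1
      split_ifs <;> simp
    have h1 : sg = ∑ β : A, sg β • (Pi.single β 1 : A → ℝ) := by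
      funext β
      simp [Finset.sum_apply, Pi.single_apply]
    have h2 : g sg = ∑ β : A, |g (Pi.single β 1)| := by
      conv_lhs => rw [h1]
      rw [map_sum]
      refine Finset.sum_congr rfl (fun β _ => ?_)
      rw [map_smul, smul_eq_mul]
      show (if 0 ≤ g (Pi.single β 1) then (1 : ℝ) else -1) * _ = _
      split_ifs with h
      · rw [one_mul, abs_of_nonneg h]
      · rw [neg_one_mul, abs_of_neg (not_le.mp h)]
    have h3 : g sg ≤ (1 - δ)⁻¹ := by
      refine (le_abs_self _).trans ((g.le_opNorm sg).trans ?_)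
      calc ‖g‖ * ‖sg‖ ≤ (1 - δ)⁻¹ * 1 := mul_le_mul hg hsg (norm_nonneg _) (by positivity)
        _ = (1 - δ)⁻¹ := mul_one _
    calc ∑ β : A, |(1 - δ) * g (Pi.single β 1)| = (1 - δ) * g sg := by
          rw [h2, Finset.mul_sum]
          refine Finset.sum_congr rfl (fun β _ => ?_)
          rw [abs_mul, abs_of_pos hδ]
      _ ≤ (1 - δ) * (1 - δ)⁻¹ := mul_le_mul_of_nonneg_left h3 hδ.le
      _ = 1 := mul_inv_cancel₀ hδ.ne'
  · intro y
    rw [hcA (fun β x => x * D R β (u y)) (fun _ => zero_mul _)]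
    have h1 : w y = ∑ β : A, w y β • (Pi.single β 1 : A → ℝ) := by
      funext β
      simp [Finset.sum_apply, Pi.single_apply]
    have h2 : g (w y) = ψ y := by
      rw [← hψ' y]
      exact hg1 ⟨w y, ⟨y, rfl⟩⟩
    rw [← h2]
    conv_rhs => rw [h1]
    rw [map_sum, Finset.mul_sum]
    refine Finset.sum_congr rfl (fun β _ => ?_)
    rw [map_smul, smul_eq_mul, hw]
    ring

/-- Genericity of the row data. -/
def Generic : Prop :=
  ∀ (c : Γ →₀ ℝ) (ε : ℝ) (B : Finset Γ), 0 < ε → ∑ β ∈ c.support, |c β| ≤ 1 →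
    ∃ γ, (∀ β ∈ B, β < γ) ∧ ∀ (φ : Γ → ℝ) (K : ℝ), (∀ β, |φ β| ≤ K) →
      |∑ β ∈ (R.r γ).support, R.r γ β * φ β - ∑ β ∈ c.support, c β * φ β| ≤ ε * K

theorem isGurarii (hgen : Generic R) : IsGurarii (X R) := by
  classical
  intro ε hε F _ _ _ E e
  set δ : ℝ := ε / (4 * (1 + ε)) with hδ
  have hδ0 : 0 < δ := by positivity
  have hδε : δ ≤ ε / 4 := by
    rw [hδ, div_le_div_iff₀ (by positivity) (by norm_num)]
    nlinarith
  have hδ1 : δ < 1 / 4 := by
    rw [hδ, div_lt_div_iff₀ (by positivity) (by norm_num)]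
    nlinarith
  have hδinv : (1 + ε)⁻¹ ≤ 1 - δ := by
    rw [inv_le_iff_one_le_mul₀ (by positivity)]
    have h1 : δ * (1 + ε) = ε / 4 := by rw [hδ]; field_simp
    nlinarith
  -- perturb the embedding
  obtain ⟨u, hu⟩ : ∃ u : E →ₗ[ℝ] (Γ →₀ ℝ), ∀ y, ‖J R (u y) - e y‖ ≤ δ * ‖y‖ := by
    let b := Module.finBasis ℝ E
    obtain ⟨C, hC, hbd⟩ := b.exists_opNorm_le (F := X R)
    have hd : ∀ i, ∃ a : Γ →₀ ℝ, ‖J R a - e (b i)‖ ≤ δ / C := by
      intro i
      have h1 := J_dense R (e (b i))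
      rw [Metric.mem_closure_iff] at h1
      obtain ⟨_, ⟨a, rfl⟩, ha⟩ := h1 (δ / C) (by positivity)
      refine ⟨a, ?_⟩
      rw [dist_comm, dist_eq_norm] at ha
      exact ha.le
    choose a ha using hd
    refine ⟨b.constr ℝ a, ?_⟩
    let v : E →L[ℝ] X R := LinearMap.toContinuousLinearMap ((J R).comp (b.constr ℝ a)) -
      e.toContinuousLinearMap
    have hv : ‖v‖ ≤ C * (δ / C) := by
      apply hbd (by positivity)
      intro i
      have : v (b i) = J R (a i) - e (b i) := by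
        show J R (b.constr ℝ a (b i)) - e (b i) = _
        rw [Module.Basis.constr_basis]
      rw [this]; exact ha i
    have hv' : ‖v‖ ≤ δ := by
      refine hv.trans (le_of_eq ?_)
      field_simp
    intro y
    exact (v.le_opNorm y).trans (mul_le_mul_of_nonneg_right hv' (norm_nonneg _))
  -- a common finite support
  obtain ⟨A, hA⟩ : ∃ A : Finset Γ, ∀ y, ∀ γ, γ ∉ A → u y γ = 0 := by
    let b := Module.finBasis ℝ E
    refine ⟨Finset.univ.biUnion (fun i => (u (b i)).support), fun y γ hγ => ?_⟩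
    have h1 : ∀ i, u (b i) γ = 0 := by
      intro i
      by_contra h
      exact hγ (Finset.mem_biUnion.mpr ⟨i, Finset.mem_univ _, Finsupp.mem_support_iff.mpr h⟩)
    have h2 : ((Finsupp.lapply γ : (Γ →₀ ℝ) →ₗ[ℝ] ℝ).comp u) = 0 := by
      apply b.ext
      intro i
      exact h1 i
    exact LinearMap.congr_fun h2 y
  have hup : ∀ y, ‖J R (u y)‖ ≤ (1 + δ) * ‖y‖ := by
    intro y
    have h1 := norm_add_le (J R (u y) - e y) (e y)
    rw [sub_add_cancel, e.norm_map] at h1
    linarith [hu y]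
  have hlow : ∀ y, (1 - δ) * ‖y‖ ≤ ‖J R (u y)‖ := by
    intro y
    have h1 := norm_sub_norm_le (e y) (e y - J R (u y))
    rw [sub_sub_cancel, norm_sub_rev, e.norm_map] at h1
    linarith [hu y]
  -- extend the coordinates
  have hext : ∀ γ : Γ, ∃ g : StrongDual ℝ F, (∀ y : E, g y = D R γ (u y)) ∧ ‖g‖ ≤ 1 + δ := by
    intro γ
    let h : StrongDual ℝ E := LinearMap.toContinuousLinearMap ((D R γ).comp u)
    have hh : ‖h‖ ≤ 1 + δ := by
      apply ContinuousLinearMap.opNorm_le_bound _ (by positivity)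
      intro y
      exact (le_norm_J R (u y) γ).trans (hup y)
    obtain ⟨g, hg1, hg2⟩ := exists_extension_norm_eq E h
    exact ⟨g, hg1, by rw [hg2]; exact hh⟩
  choose g hg1 hg2 using hext
  obtain ⟨Ψ, hΨ1, hΨ2⟩ := exists_norming F hδ0
  -- add the new coordinates one at a time
  have claim : ∀ S : Finset (StrongDual ℝ F), (∀ ψ ∈ S, ‖ψ‖ ≤ 1) →
      ∃ (B : Finset Γ) (t : Γ → StrongDual ℝ F), A ⊆ B ∧ (∀ β ∈ B, ‖t β‖ ≤ 1 + δ) ∧
        (∀ ψ ∈ S, ∃ β ∈ B, t β = ψ) ∧ ∀ β ∈ B, ∀ y : E, |t β y - D R β (u y)| ≤ 3 * δ * ‖y‖ := by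
    intro S
    induction S using Finset.induction_on with
    | empty =>
      intro _
      refine ⟨A, g, Finset.Subset.refl _, fun β _ => hg2 β, by simp, fun β _ y => ?_⟩
      rw [hg1, sub_self, abs_zero]; positivity
    | insert ψ S _ ih =>
      intro hS
      obtain ⟨B, t, hAB, h1, h2, h3⟩ := ih (fun ψ' hψ' => hS ψ' (Finset.mem_insert_of_mem hψ'))
      have hψ : ‖ψ‖ ≤ 1 := hS ψ (Finset.mem_insert_self _ _)
      have hψE : ‖ψ.comp E.subtypeL‖ ≤ 1 := by
        apply ContinuousLinearMap.opNorm_le_bound _ zero_le_one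
        intro y
        exact (ψ.le_opNorm (y : F)).trans (mul_le_mul_of_nonneg_right hψ (norm_nonneg _))
      obtain ⟨c, hc1, hc2⟩ := exists_coeff R u hA (by linarith : δ < 1) hlow
        (ψ.comp E.subtypeL) hψE
      obtain ⟨γ, hγB, hγ⟩ := hgen c δ B hδ0 hc1
      have hγnot : γ ∉ B := fun h => lt_irrefl _ (hγB γ h)
      have hne : ∀ β ∈ B, β ≠ γ := fun β hβ h => hγnot (h ▸ hβ)
      refine ⟨insert γ B, Function.update t γ ψ, hAB.trans (Finset.subset_insert _ _), ?_, ?_, ?_⟩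
      · intro β hβ
        rcases Finset.mem_insert.mp hβ with rfl | hβ
        · rw [Function.update_self]; linarith
        · rw [Function.update_of_ne (hne β hβ)]; exact h1 β hβ
      · intro ψ' hψ'
        rcases Finset.mem_insert.mp hψ' with rfl | hψ'
        · exact ⟨γ, Finset.mem_insert_self _ _, Function.update_self _ _ _⟩
        · obtain ⟨β, hβ, hβt⟩ := h2 ψ' hψ'
          exact ⟨β, Finset.mem_insert_of_mem hβ, by rw [Function.update_of_ne (hne β hβ), hβt]⟩
      · intro β hβ y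
        rcases Finset.mem_insert.mp hβ with rfl | hβ
        · rw [Function.update_self, D_eq, hA y β (fun h => hγnot (hAB h)), zero_add]
          have h4 := hγ (fun β => D R β (u y)) (‖J R (u y)‖) (fun β => le_norm_J R (u y) β)
          rw [hc2 y] at h4
          have h5 : (ψ.comp E.subtypeL) y = ψ y := rfl
          rw [h5] at h4
          have h6 : |ψ y| ≤ ‖y‖ := by
            refine (ψ.le_opNorm (y : F)).trans ?_
            calc ‖ψ‖ * ‖(y : F)‖ ≤ 1 * ‖(y : F)‖ := mul_le_mul_of_nonneg_right hψ (norm_nonneg _)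
              _ = ‖y‖ := one_mul _
          have h7 := hup y
          have h8 := abs_le.mp h4
          have h9 := abs_le.mp h6
          have h10 : δ * ‖J R (u y)‖ ≤ 2 * δ * ‖y‖ := by
            have : δ * ‖J R (u y)‖ ≤ δ * ((1 + δ) * ‖y‖) := mul_le_mul_of_nonneg_left h7 hδ0.le
            nlinarith [norm_nonneg y, mul_nonneg hδ0.le (norm_nonneg y)]
          have h11 : |δ * ψ y| ≤ δ * ‖y‖ := by
            rw [abs_mul, abs_of_pos hδ0]
            exact mul_le_mul_of_nonneg_left h6 hδ0.le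
          have h12 := abs_le.mp h11
          rw [abs_le]
          constructor
          · linarith
          · linarith
        · rw [Function.update_of_ne (hne β hβ)]; exact h3 β hβ y
  obtain ⟨B, t, hAB, ht1, ht2, ht3⟩ := claim Ψ hΨ1
  obtain ⟨φ, hφ1, hφ2⟩ := exists_lift R B (fun γ => (t γ : F →ₗ[ℝ] ℝ))
  refine ⟨LinearMap.toContinuousLinearMap ((J R).comp φ), fun y => ⟨?_, ?_⟩, fun y => ?_⟩
  · show (1 + ε)⁻¹ * ‖y‖ ≤ ‖J R (φ y)‖
    refine (mul_le_mul_of_nonneg_right hδinv (norm_nonneg _)).trans ?_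
    rcases hΨ2 y with h | ⟨ψ, hψ, h⟩
    · exact h.trans (norm_nonneg _)
    · obtain ⟨β, hβ, hβt⟩ := ht2 ψ hψ
      refine h.trans ?_
      have h2 : ψ y = D R β (φ y) := by rw [hφ2 β hβ y, hβt]; rfl
      rw [h2]
      exact le_norm_J R _ _
  · show ‖J R (φ y)‖ ≤ (1 + ε) * ‖y‖
    apply norm_J_le R (hφ1 y) (by positivity)
    intro β hβ
    rw [hφ2 β hβ y]
    refine ((t β).le_opNorm y).trans ?_
    apply mul_le_mul_of_nonneg_right _ (norm_nonneg _)
    linarith [ht1 β hβ]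
  · show ‖J R (φ y) - e y‖ ≤ ε * ‖y‖
    have h1 : ‖J R (φ y) - J R (u y)‖ ≤ 3 * δ * ‖y‖ := by
      rw [← map_sub]
      apply norm_J_le R (B := B) _ (by positivity)
      · intro β hβ
        rw [map_sub, hφ2 β hβ y]
        exact ht3 β hβ y
      · intro γ hγ
        rw [Finsupp.sub_apply, hφ1 y γ hγ, hA y γ (fun h => hγ (hAB h)), sub_zero]
    have h2 := norm_add_le (J R (φ y) - J R (u y)) (J R (u y) - e y)
    rw [sub_add_sub_cancel] at h2
    have h3 := hu y
    nlinarith [norm_nonneg y]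

/-! ### Further properties of the space -/

theorem D_single_self (γ : Γ) : D R γ (Finsupp.single γ 1) = 1 := by
  rw [D_eq, Finsupp.single_eq_same, Finset.sum_eq_zero, add_zero]
  intro α hα
  rw [D_zero R α _ (fun α' hα' => ?_), mul_zero]
  rw [Finsupp.single_apply, if_neg]
  have := R.supp γ α hα
  exact fun h => absurd (h ▸ hα') (not_le.mpr this)

theorem D_single_lt {γ γ' : Γ} (h : γ < γ') : D R γ (Finsupp.single γ' 1) = 0 := by
  apply D_zero
  intro α hα
  rw [Finsupp.single_apply, if_neg]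
  intro h'
  exact absurd h (not_lt.mpr (h' ▸ hα))

theorem norm_J_single (γ : Γ) : ‖J R (Finsupp.single γ 1)‖ ≤ 1 := by
  classical
  apply norm_J_le R (B := {γ}) _ zero_le_one
  · intro β hβ
    rw [Finset.mem_singleton] at hβ
    subst hβ
    rw [D_single_self, abs_one]
  · intro β hβ
    rw [Finset.mem_singleton] at hβ
    rw [Finsupp.single_apply, if_neg (Ne.symm hβ)]

theorem J_eq_sum (a : Γ →₀ ℝ) : J R a = ∑ β ∈ a.support, a β • J R (Finsupp.single β 1) := by
  conv_lhs => rw [← Finsupp.sum_single a]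
  rw [Finsupp.sum, map_sum]
  refine Finset.sum_congr rfl (fun β _ => ?_)
  rw [← map_smul, Finsupp.smul_single, smul_eq_mul, mul_one]

theorem Pr_top (v : X R) {s : Set Γ} (hs : ∀ γ, γ ∈ s) : Pr R s v = v := by
  have hlow : IsLowerSet s := fun _ _ _ _ => hs _
  refine (J_dense R).induction_on (p := fun v => Pr R s v = v) v
    (isClosed_eq (Pr R s).continuous continuous_id) (fun a => ?_)
  rw [Pr_J R hlow]
  congr 1
  ext γ
  exact filt_mem a (hs γ)

theorem Pr_idem {s : Set Γ} (hs : IsLowerSet s) (v : X R) : Pr R s (Pr R s v) = Pr R s v := by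
  refine (J_dense R).induction_on (p := fun v => Pr R s (Pr R s v) = Pr R s v) v
    (isClosed_eq ((Pr R s).continuous.comp (Pr R s).continuous) (Pr R s).continuous) (fun a => ?_)
  rw [Pr_J R hs, Pr_J R hs]
  congr 1
  ext γ
  by_cases h : γ ∈ s
  · rw [filt_mem _ h]
  · rw [filt_notMem _ h, filt_notMem _ h]

theorem lower_card {S : Set (X R)} (hS : Dense S) : Cardinal.mk Γ ≤ Cardinal.mk S := by
  have h1 : ∀ γ, ∃ s ∈ S, ‖J R (Finsupp.single γ 1) - s‖ < 1 / 2 := by
    intro γ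
    have := hS (J R (Finsupp.single γ 1))
    rw [Metric.mem_closure_iff] at this
    obtain ⟨s, hs, hd⟩ := this (1 / 2) (by norm_num)
    exact ⟨s, hs, by rwa [dist_eq_norm] at hd⟩
  choose s hs hd using h1
  have key : ∀ γ γ', γ < γ' → s γ ≠ s γ' := by
    intro γ γ' hlt heq
    have h2 := le_norm_J R (Finsupp.single γ 1 - Finsupp.single γ' 1) γ
    rw [map_sub, D_single_self, D_single_lt R hlt, sub_zero, abs_one, map_sub] at h2
    have h3 : J R (Finsupp.single γ 1) - J R (Finsupp.single γ' 1) =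
        (J R (Finsupp.single γ 1) - s γ) - (J R (Finsupp.single γ' 1) - s γ') := by
      rw [heq]; abel
    rw [h3] at h2
    have h4 := norm_sub_le (J R (Finsupp.single γ 1) - s γ) (J R (Finsupp.single γ' 1) - s γ')
    linarith [hd γ, hd γ']
  have hinj : Function.Injective (fun γ => (⟨s γ, hs γ⟩ : S)) := by
    intro γ γ' h
    have h' : s γ = s γ' := congrArg Subtype.val h
    rcases lt_trichotomy γ γ' with h1 | h1 | h1
    · exact absurd h' (key γ γ' h1)
    · exact h1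
    · exact absurd h'.symm (key γ' γ h1)
  exact Cardinal.mk_le_of_injective hinj

/-- Rational approximation of finitely supported families, coordinatewise smaller. -/
theorem exists_rat (a : Γ →₀ ℝ) {η : ℝ} (hη : 0 < η) : ∃ q : Γ →₀ ℚ,
    (∀ β, |((q β : ℚ) : ℝ)| ≤ |a β|) ∧ (∀ β, |((q β : ℚ) : ℝ) - a β| ≤ η) ∧
      q.support ⊆ a.support := by
  classical
  have h1 : ∀ x : ℝ, ∃ q : ℚ, |(q : ℝ)| ≤ |x| ∧ |(q : ℝ) - x| ≤ η ∧ (x = 0 → q = 0) := by
    intro x
    rcases lt_trichotomy x 0 with hx | hx | hx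
    · obtain ⟨q, hq1, hq2⟩ := exists_rat_btwn (lt_min (lt_add_of_pos_right x hη) hx)
      have h2 := (lt_min_iff.mp hq2).1
      have h3 := (lt_min_iff.mp hq2).2
      refine ⟨q, ?_, ?_, fun h => absurd h hx.ne⟩
      · rw [abs_of_neg h3, abs_of_neg hx]; linarith
      · rw [abs_of_nonneg (by linarith)]; linarith
    · exact ⟨0, by simp, by simp [hx, hη.le], fun _ => rfl⟩
    · obtain ⟨q, hq1, hq2⟩ := exists_rat_btwn (max_lt (sub_lt_self x hη) hx)
      have h2 := (max_lt_iff.mp hq1).1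
      have h3 := (max_lt_iff.mp hq1).2
      refine ⟨q, ?_, ?_, fun h => absurd h hx.ne'⟩
      · rw [abs_of_pos h3, abs_of_pos hx]; linarith
      · rw [abs_of_nonpos (by linarith)]; linarith
  choose f hf1 hf2 hf3 using h1
  refine ⟨Finsupp.onFinset a.support (fun β => f (a β)) (fun β hβ => ?_), fun β => hf1 _,
    fun β => hf2 _, Finsupp.support_onFinset_subset⟩
  rw [Finsupp.mem_support_iff]
  intro h
  exact hβ (hf3 _ h)

theorem dense_rat : Dense (Set.range (fun q : Γ →₀ ℚ =>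
    J R (q.mapRange (fun x : ℚ => (x : ℝ)) Rat.cast_zero))) := by
  classical
  intro v
  rw [Metric.mem_closure_iff]
  intro ε hε
  have h1 := J_dense R v
  rw [Metric.mem_closure_iff] at h1
  obtain ⟨_, ⟨a, rfl⟩, ha⟩ := h1 (ε / 2) (by positivity)
  set n : ℕ := a.support.card with hn
  obtain ⟨q, -, hq2, hq3⟩ := exists_rat a (by positivity : 0 < ε / (4 * ((n : ℝ) + 1)))
  refine ⟨_, ⟨q, rfl⟩, ?_⟩
  have h2 : J R a - J R (q.mapRange (fun x : ℚ => (x : ℝ)) Rat.cast_zero) =
      ∑ β ∈ a.support, (a β - ((q β : ℚ) : ℝ)) • J R (Finsupp.single β 1) := by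
    rw [J_eq_sum R a, J_eq_sum R (q.mapRange (fun x : ℚ => (x : ℝ)) Rat.cast_zero)]
    have h3 : ∑ β ∈ (q.mapRange (fun x : ℚ => (x : ℝ)) Rat.cast_zero).support,
        (q.mapRange (fun x : ℚ => (x : ℝ)) Rat.cast_zero) β • J R (Finsupp.single β 1) =
          ∑ β ∈ a.support, ((q β : ℚ) : ℝ) • J R (Finsupp.single β 1) := by
      apply Finset.sum_subset
      · exact Finsupp.support_mapRange.trans hq3
      · intro β _ hβ
        have : (q.mapRange (fun x : ℚ => (x : ℝ)) Rat.cast_zero) β = 0 :=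
          Finsupp.notMem_support_iff.mp hβ
        rw [this, zero_smul]
    rw [h3, ← Finset.sum_sub_distrib]
    exact Finset.sum_congr rfl (fun β _ => (sub_smul _ _ _).symm)
  have h4 : ‖J R a - J R (q.mapRange (fun x : ℚ => (x : ℝ)) Rat.cast_zero)‖ ≤ ε / 4 := by
    rw [h2]
    calc ‖∑ β ∈ a.support, (a β - ((q β : ℚ) : ℝ)) • J R (Finsupp.single β 1)‖
        ≤ ∑ β ∈ a.support, (ε / (4 * ((n : ℝ) + 1))) := by
          refine (norm_sum_le _ _).trans (Finset.sum_le_sum (fun β _ => ?_))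
          rw [norm_smul, Real.norm_eq_abs, abs_sub_comm]
          calc |((q β : ℚ) : ℝ) - a β| * ‖J R (Finsupp.single β 1)‖
              ≤ (ε / (4 * ((n : ℝ) + 1))) * 1 :=
                mul_le_mul (hq2 β) (norm_J_single R β) (norm_nonneg _) (by positivity)
            _ = _ := mul_one _
      _ = n * (ε / (4 * ((n : ℝ) + 1))) := by rw [Finset.sum_const, nsmul_eq_mul]
      _ ≤ ε / 4 := by
          rw [mul_div_assoc', div_le_div_iff₀ (by positivity) (by norm_num)]
          nlinarith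
  rw [dist_eq_norm] at ha ⊢
  calc ‖v - J R (q.mapRange (fun x : ℚ => (x : ℝ)) Rat.cast_zero)‖
      = ‖(v - J R a) + (J R a - J R (q.mapRange (fun x : ℚ => (x : ℝ)) Rat.cast_zero))‖ := by
        rw [sub_add_sub_cancel]
    _ ≤ ‖v - J R a‖ + ‖J R a - J R (q.mapRange (fun x : ℚ => (x : ℝ)) Rat.cast_zero)‖ :=
        norm_add_le _ _
    _ < ε := by linarith

/-- Existence of generic row data. -/
theorem exists_generic (hcard : Cardinal.mk Γ = Cardinal.aleph 1)
    (hlow : ∀ γ : Γ, (Set.Iic γ).Countable) : ∃ R : Rows Γ, Generic R := by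
  classical
  have hinf : Infinite Γ := by
    rw [Cardinal.infinite_iff, hcard]; exact Cardinal.aleph0_le_aleph 1
  have hq : Cardinal.mk (Γ →₀ ℚ) = Cardinal.aleph 1 := by
    rw [Cardinal.mk_finsupp_of_infinite, hcard, Cardinal.mkRat]
    exact max_eq_left (Cardinal.aleph0_le_aleph 1)
  have hprod : Cardinal.mk Γ = Cardinal.mk ((Γ →₀ ℚ) × Γ) := by
    rw [Cardinal.mk_prod, Cardinal.lift_id, Cardinal.lift_id, hq, hcard,
      Cardinal.mul_eq_self (Cardinal.aleph0_le_aleph 1)]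
  obtain ⟨g⟩ := Cardinal.eq.mp hprod
  let ok : Γ → (Γ →₀ ℝ) → Prop := fun γ c => (∀ β ∈ c.support, β < γ) ∧ ∑ β ∈ c.support, |c β| ≤ 1
  let r : Γ → (Γ →₀ ℝ) := fun γ =>
    if ok γ ((g γ).1.mapRange (fun x : ℚ => (x : ℝ)) Rat.cast_zero)
      then (g γ).1.mapRange (fun x : ℚ => (x : ℝ)) Rat.cast_zero else 0
  have hr : ∀ γ, ok γ (r γ) := by
    intro γ
    show ok γ (if ok γ ((g γ).1.mapRange (fun x : ℚ => (x : ℝ)) Rat.cast_zero)
      then (g γ).1.mapRange (fun x : ℚ => (x : ℝ)) Rat.cast_zero else 0)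
    split_ifs with h
    · exact h
    · exact ⟨by simp, by simp⟩
  refine ⟨⟨r, fun γ => (hr γ).1, fun γ => (hr γ).2⟩, ?_⟩
  intro c ε B hε hc
  set n : ℕ := c.support.card with hn
  obtain ⟨q, hq1, hq2, hq3⟩ := exists_rat c (by positivity : 0 < ε / ((n : ℝ) + 1))
  -- a large index with row `q`
  obtain ⟨γ, hγq, hγB⟩ : ∃ γ, (g γ).1 = q ∧ ∀ β ∈ B ∪ c.support, β < γ := by
    by_contra hcon
    push Not at hcon
    have h1 : (⋃ β ∈ B ∪ c.support, Set.Iic β : Set Γ).Countable :=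
      Set.Countable.biUnion (Finset.countable_toSet _) (fun β _ => hlow β)
    have h2 : ∀ δ : Γ, g.symm (q, δ) ∈ (⋃ β ∈ B ∪ c.support, Set.Iic β : Set Γ) := by
      intro δ
      obtain ⟨β, hβ, hle⟩ := hcon (g.symm (q, δ)) (by rw [Equiv.apply_symm_apply])
      exact Set.mem_biUnion hβ hle
    have h3 : Function.Injective (fun δ : Γ => (⟨g.symm (q, δ), h2 δ⟩ :
        (⋃ β ∈ B ∪ c.support, Set.Iic β : Set Γ))) := by
      intro δ δ' h
      have h4 : g.symm (q, δ) = g.symm (q, δ') := congrArg Subtype.val h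
      exact (Prod.ext_iff.mp (g.symm.injective h4)).2
    have h4 : Countable Γ := by
      have := h1.to_subtype
      exact h3.countable
    have h5 : Cardinal.mk Γ ≤ Cardinal.aleph0 := Cardinal.mk_le_aleph0_iff.mpr h4
    rw [hcard] at h5
    exact absurd h5 (not_le.mpr Cardinal.aleph0_lt_aleph_one)
  have hsupp : (q.mapRange (fun x : ℚ => (x : ℝ)) Rat.cast_zero).support ⊆ c.support :=
    Finsupp.support_mapRange.trans hq3
  have hok : ok γ (q.mapRange (fun x : ℚ => (x : ℝ)) Rat.cast_zero) := by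
    refine ⟨fun β hβ => hγB β (Finset.mem_union_right _ (hsupp hβ)), ?_⟩
    calc ∑ β ∈ (q.mapRange (fun x : ℚ => (x : ℝ)) Rat.cast_zero).support,
          |(q.mapRange (fun x : ℚ => (x : ℝ)) Rat.cast_zero) β|
        ≤ ∑ β ∈ c.support, |(q.mapRange (fun x : ℚ => (x : ℝ)) Rat.cast_zero) β| :=
          Finset.sum_le_sum_of_subset_of_nonneg hsupp (fun _ _ _ => abs_nonneg _)
      _ ≤ ∑ β ∈ c.support, |c β| := Finset.sum_le_sum (fun β _ => hq1 β)
      _ ≤ 1 := hc
  have hrγ : r γ = q.mapRange (fun x : ℚ => (x : ℝ)) Rat.cast_zero := by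
    show (if ok γ ((g γ).1.mapRange (fun x : ℚ => (x : ℝ)) Rat.cast_zero)
      then (g γ).1.mapRange (fun x : ℚ => (x : ℝ)) Rat.cast_zero else 0) = _
    rw [hγq, if_pos hok]
  refine ⟨γ, fun β hβ => hγB β (Finset.mem_union_left _ hβ), fun φ K hφ => ?_⟩
  show |∑ β ∈ (r γ).support, r γ β * φ β - ∑ β ∈ c.support, c β * φ β| ≤ ε * K
  rw [hrγ]
  have hK : 0 ≤ K := (abs_nonneg _).trans (hφ γ)
  have h1 : ∑ β ∈ (q.mapRange (fun x : ℚ => (x : ℝ)) Rat.cast_zero).support,
      (q.mapRange (fun x : ℚ => (x : ℝ)) Rat.cast_zero) β * φ β =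
        ∑ β ∈ c.support, (q.mapRange (fun x : ℚ => (x : ℝ)) Rat.cast_zero) β * φ β := by
    apply Finset.sum_subset hsupp
    intro β _ hβ
    rw [Finsupp.notMem_support_iff.mp hβ, zero_mul]
  rw [h1, ← Finset.sum_sub_distrib]
  calc |∑ β ∈ c.support, ((q.mapRange (fun x : ℚ => (x : ℝ)) Rat.cast_zero) β * φ β - c β * φ β)|
      ≤ ∑ β ∈ c.support, (ε / ((n : ℝ) + 1)) * K := by
        refine (Finset.abs_sum_le_sum_abs _ _).trans (Finset.sum_le_sum (fun β _ => ?_))
        rw [← sub_mul, abs_mul]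
        exact mul_le_mul (hq2 β) (hφ β) (abs_nonneg _) (by positivity)
    _ = n * ((ε / ((n : ℝ) + 1)) * K) := by rw [Finset.sum_const, nsmul_eq_mul]
    _ ≤ ε * K := by
        rw [← mul_assoc]
        apply mul_le_mul_of_nonneg_right _ hK
        rw [mul_div_assoc', div_le_iff₀ (by positivity)]
        nlinarith

theorem hasDensity (hcard : Cardinal.mk Γ = Cardinal.aleph 1) :
    HasDensity (X R) (Cardinal.aleph 1) := by
  have hinf : Infinite Γ := by
    rw [Cardinal.infinite_iff, hcard]; exact Cardinal.aleph0_le_aleph 1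
  have hlow : ∀ S : Set (X R), Dense S → Cardinal.aleph 1 ≤ Cardinal.mk S := by
    intro S hS
    rw [← hcard]; exact lower_card R hS
  refine ⟨⟨_, dense_rat R, le_antisymm ?_ (hlow _ (dense_rat R))⟩, hlow⟩
  refine Cardinal.mk_range_le.trans ?_
  rw [Cardinal.mk_finsupp_of_infinite, hcard, Cardinal.mkRat]
  exact max_le le_rfl (Cardinal.aleph0_le_aleph 1)

end Construction

/-! ### The space of density `ℵ₁` -/

/-- The length of the basis. -/
noncomputable def κ : Ordinal.{0} := (Cardinal.aleph 1).ord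

/-- The index set. -/
abbrev G : Type := κ.ToType

theorem card_G : Cardinal.mk G = Cardinal.aleph 1 := Cardinal.mk_ord_toType _

theorem countable_Iic (γ : G) : (Set.Iic γ).Countable := by
  have h1 : (Set.Iio γ).Countable := by
    rw [Cardinal.countable_iff_lt_aleph_one]
    have h2 := Cardinal.mk_Iio_lt γ (by
      rw [card_G, Ordinal.type_toType]; rfl)
    rw [card_G] at h2
    exact h2
  have h3 : Set.Iic γ = insert γ (Set.Iio γ) := by
    ext β
    simp only [Set.mem_Iic, Set.mem_insert_iff, Set.mem_Iio]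
    exact le_iff_eq_or_lt
  rw [h3]
  exact h1.insert γ

/-- The ordinal of an index. -/
noncomputable def od (γ : G) : Ordinal := (Ordinal.ToType.mk.symm γ : Set.Iio κ).1

theorem od_lt (γ : G) : od γ < κ := (Ordinal.ToType.mk.symm γ : Set.Iio κ).2

theorem od_le {γ γ' : G} (h : γ ≤ γ') : od γ ≤ od γ' := by
  have := (Ordinal.ToType.mk (o := κ)).symm.monotone h
  exact this

/-- The index of an ordinal. -/
noncomputable def ix (α : Ordinal) (h : α < κ) : G := Ordinal.ToType.mk ⟨α, h⟩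

theorem od_ix (α : Ordinal) (h : α < κ) : od (ix α h) = α := by
  unfold od ix
  rw [OrderIso.symm_apply_apply]

theorem ix_od (γ : G) : ix (od γ) (od_lt γ) = γ := by
  unfold od ix
  have : (⟨(Ordinal.ToType.mk.symm γ : Set.Iio κ).1, od_lt γ⟩ : Set.Iio κ) =
      Ordinal.ToType.mk.symm γ := rfl
  rw [this, OrderIso.apply_symm_apply]

/-- The initial segment of indices below an ordinal. -/
def seg (β : Ordinal) : Set G := {γ | od γ < β}

theorem seg_lower (β : Ordinal) : IsLowerSet (seg β) := fun _ _ h h' => lt_of_le_of_lt (od_le h) h'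

open Classical in
/-- The basis. -/
noncomputable def ev (R : Rows G) (α : Ordinal) : X R :=
  if h : α < κ then J R (Finsupp.single (ix α h) 1) else 0

theorem ev_eq (R : Rows G) {α : Ordinal} (h : α < κ) : ev R α = J R (Finsupp.single (ix α h) 1) :=
  dif_pos h

theorem isBasis (R : Rows G) :
    IsMonotoneTransfiniteBasis κ (ev R) (fun β => Pr R (seg β)) := by
  classical
  refine ⟨?_, ?_, fun β _ v => Pr_idem R (seg_lower β) v, ?_, ?_,
    fun v => Pr_top R v od_lt, ?_, fun β _ => Pr_norm R (seg_lower β)⟩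
  · intro α hα h0
    rw [ev_eq R hα] at h0
    have h1 := le_norm_J R (Finsupp.single (ix α hα) 1) (ix α hα)
    rw [D_single_self, h0, norm_zero, abs_one] at h1
    linarith
  · rw [eq_top_iff]
    rintro v -
    show v ∈ closure (Submodule.span ℝ (ev R '' Set.Iio κ) : Set (X R))
    rw [Metric.mem_closure_iff]
    intro ε hε
    have h1 := J_dense R v
    rw [Metric.mem_closure_iff] at h1
    obtain ⟨_, ⟨a, rfl⟩, ha⟩ := h1 ε hε
    refine ⟨J R a, ?_, ha⟩
    rw [J_eq_sum R a]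
    refine Submodule.sum_mem _ (fun β _ => Submodule.smul_mem _ _ (Submodule.subset_span ?_))
    refine ⟨od β, od_lt β, ?_⟩
    rw [ev_eq R (od_lt β), ix_od]
  · intro β _ α hα
    by_cases h : α < κ
    · rw [ev_eq R h]
      show Pr R (seg β) _ = _
      rw [Pr_J R (seg_lower β)]
      congr 1
      ext γ
      by_cases hγ : γ ∈ seg β
      · rw [filt_mem _ hγ]
      · rw [filt_notMem _ hγ, Finsupp.single_apply, if_neg]
        rintro rfl
        apply hγ
        show od (ix α h) < β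
        rw [od_ix]; exact hα
    · have : ev R α = 0 := dif_neg h
      rw [this, map_zero]
  · intro β _ α hβα h
    rw [ev_eq R h]
    show Pr R (seg β) _ = _
    rw [Pr_J R (seg_lower β)]
    have : filt (seg β) (Finsupp.single (ix α h) (1 : ℝ)) = 0 := by
      ext γ
      by_cases hγ : γ ∈ seg β
      · rw [filt_mem _ hγ, Finsupp.single_apply, if_neg]
        · rfl
        rintro rfl
        have h1 : od (ix α h) < β := hγ
        rw [od_ix] at h1
        exact absurd h1 (not_lt.mpr hβα)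
      · rw [filt_notMem _ hγ]; rfl
    rw [this, map_zero]
  · intro v β _
    rw [ContinuousWithinAt, Metric.tendsto_nhds]
    intro ε hε
    have h1 := J_dense R v
    rw [Metric.mem_closure_iff] at h1
    obtain ⟨_, ⟨a, rfl⟩, ha⟩ := h1 (ε / 2) (by positivity)
    rw [dist_eq_norm] at ha
    -- a neighbourhood on which the projections of `J a` agree
    let U : Set Ordinal := (⋂ γ ∈ a.support.filter (fun γ => od γ < β), Set.Ioi (od γ)) ∩
      Set.Iio (Order.succ β)
    have hU : IsOpen U :=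
      (isOpen_biInter_finset (fun γ _ => isOpen_Ioi)).inter isOpen_Iio
    have hβU : β ∈ U := by
      refine ⟨?_, Order.lt_succ β⟩
      rw [Set.mem_iInter₂]
      intro γ hγ
      exact (Finset.mem_filter.mp hγ).2
    have hagree : ∀ β' ∈ U, filt (seg β') a = filt (seg β) a := by
      rintro β' ⟨hβ'1, hβ'2⟩
      have hle : β' ≤ β := Order.lt_succ_iff.mp hβ'2
      rw [Set.mem_iInter₂] at hβ'1
      ext γ
      by_cases hγa : γ ∈ a.support
      · by_cases hγ : od γ < β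
        · have h2 : od γ < β' := hβ'1 γ (Finset.mem_filter.mpr ⟨hγa, hγ⟩)
          rw [filt_mem (s := seg β') _ h2, filt_mem (s := seg β) _ hγ]
        · have h2 : ¬ od γ < β' := fun h => hγ (lt_of_lt_of_le h hle)
          rw [filt_notMem (s := seg β') _ h2, filt_notMem (s := seg β) _ hγ]
      · have h0 : a γ = 0 := Finsupp.notMem_support_iff.mp hγa
        have h3 : ∀ s : Set G, filt s a γ = 0 := by
          intro s
          by_cases hs : γ ∈ s
          · rw [filt_mem _ hs, h0]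
          · rw [filt_notMem _ hs]
        rw [h3, h3]
    filter_upwards [mem_nhdsWithin_of_mem_nhds (hU.mem_nhds hβU)] with β' hβ'
    rw [dist_eq_norm]
    have h2 : Pr R (seg β') v - Pr R (seg β) v =
        Pr R (seg β') (v - J R a) - Pr R (seg β) (v - J R a) := by
      rw [map_sub, map_sub, Pr_J R (seg_lower β'), Pr_J R (seg_lower β), hagree β' hβ']
      abel
    rw [h2]
    refine (norm_sub_le _ _).trans_lt ?_
    have h3 : ∀ β'' : Ordinal, ‖Pr R (seg β'') (v - J R a)‖ ≤ ‖v - J R a‖ := by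
      intro β''
      refine ((Pr R (seg β'')).le_opNorm _).trans ?_
      calc ‖Pr R (seg β'')‖ * ‖v - J R a‖ ≤ 1 * ‖v - J R a‖ :=
            mul_le_mul_of_nonneg_right (Pr_norm R (seg_lower β'')) (norm_nonneg _)
        _ = _ := one_mul _
    linarith [h3 β, h3 β']

/-- There is a Gurarii space of density `ℵ₁` with a monotone transfinite Schauder basis (of
length `ω₁`). -/
theorem result :
    ∃ (X : Type) (_ : NormedAddCommGroup X) (_ : NormedSpace ℝ X) (_ : CompleteSpace X),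
      IsGurarii X ∧ HasDensity X (Cardinal.aleph 1) ∧
        ∃ (e : Ordinal.{0} → X) (P : Ordinal.{0} → X →L[ℝ] X),
          IsMonotoneTransfiniteBasis (Cardinal.aleph 1).ord e P := by
  obtain ⟨R, hR⟩ := exists_generic card_G countable_Iic
  exact ⟨X R, inferInstance, inferInstance, inferInstance, isGurarii R hR, hasDensity R card_G,
    ev R, fun β => Pr R (seg β), isBasis R⟩

end Pool.Agent.Results.MP_63eeb0_an.GurariiBasis
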